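import Pool.Agent.LE.StmtsQF

/-!
# The probability that the functional reaches one
-/

set_option autoImplicit false

open MeasureTheory ProbabilityTheory Function Filter

open scoped ENNReal BigOperators Topology NNReal ComplexOrder Matrix

noncomputable section

namespace Pool.Agent.LE.QF.H70

open Pool.Agent.Anderson hiding box mem_box card_box
open Pool.Agent.Loc Pool.Agent.Mob Pool.Agent.Helper54.Bal
  Pool.Agent.Helper96.EXP Pool.Agent.BED
open Pool.Agent.LE.MN Pool.Agent.LE.CL Pool.Agent.LE.IR Pool.Agent.LE.QD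

/-- the positive part to a power -/
theorem hasDerivAt_pospow (n : ℕ) (hn : 1 ≤ n) (y : ℝ) :
    HasDerivAt (fun y : ℝ => max y 0 ^ (n + 1)) ((n + 1) * max y 0 ^ n) y := by
  rcases lt_trichotomy y 0 with h | h | h
  · have h1 : (fun y : ℝ => max y 0 ^ (n + 1)) =ᶠ[𝓝 y] fun _ => 0 := by
      filter_upwards [gt_mem_nhds h] with z hz
      rw [max_eq_right hz.le, zero_pow (by omega)]
    rw [max_eq_right h.le, zero_pow (by omega), mul_zero]
    exact (hasDerivAt_const y (0 : ℝ)).congr_of_eventuallyEq h1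
  · subst h
    rw [max_self, zero_pow (by omega), mul_zero]
    have h1 : (fun y : ℝ => max y 0 ^ (n + 1)) =O[𝓝 0] fun x => ‖x - 0‖ ^ (n + 1) := by
      refine Asymptotics.IsBigO.of_bound 1 (Eventually.of_forall fun z => ?_)
      rw [one_mul, norm_pow, norm_pow, norm_norm, sub_zero]
      refine pow_le_pow_left₀ (norm_nonneg _) ?_ _
      rw [Real.norm_eq_abs, Real.norm_eq_abs, abs_of_nonneg (le_max_right _ _)]
      exact max_le (le_abs_self z) (abs_nonneg z)
    have h2 : HasFDerivAt (𝕜 := ℝ) (fun y : ℝ => max y 0 ^ (n + 1)) 0 0 :=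
      h1.hasFDerivAt (by omega)
    have h3 := h2.hasDerivAt
    simpa using h3
  · have h1 : (fun y : ℝ => max y 0 ^ (n + 1)) =ᶠ[𝓝 y] fun z => z ^ (n + 1) := by
      filter_upwards [lt_mem_nhds h] with z hz
      rw [max_eq_left hz.le]
    rw [max_eq_left h.le]
    have h2 := hasDerivAt_pow (n + 1) y
    rw [Nat.add_sub_cancel, Nat.cast_add, Nat.cast_one] at h2
    exact h2.congr_of_eventuallyEq h1

/-- the cut-off `1 - (1 - u)³` -/
def cu (x : ℝ) : ℝ := 1 - max (1 - x) 0 ^ 3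

theorem cu_hasDerivAt (x : ℝ) : HasDerivAt cu (3 * max (1 - x) 0 ^ 2) x := by
  have h1 := (hasDerivAt_pospow 2 (by norm_num) (1 - x)).comp x
    ((hasDerivAt_const x (1 : ℝ)).sub (hasDerivAt_id x))
  have h2 := (hasDerivAt_const x (1 : ℝ)).sub h1
  have e : (0 : ℝ) - ((2 : ℕ) + 1) * max (1 - x) 0 ^ 2 * (0 - 1) = 3 * max (1 - x) 0 ^ 2 := by
    push_cast; ring
  rw [e] at h2
  exact h2

theorem cu_deriv : deriv cu = fun x => 3 * max (1 - x) 0 ^ 2 :=
  funext fun x => (cu_hasDerivAt x).deriv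

theorem cu_hasDerivAt2 (x : ℝ) : HasDerivAt (deriv cu) (-(6 * max (1 - x) 0)) x := by
  rw [cu_deriv]
  have h1 := (hasDerivAt_pospow 1 (by norm_num) (1 - x)).comp x
    ((hasDerivAt_const x (1 : ℝ)).sub (hasDerivAt_id x))
  have h2 := h1.const_mul (3 : ℝ)
  have e : (3 : ℝ) * (((1 : ℕ) + 1) * max (1 - x) 0 ^ 1 * (0 - 1)) = -(6 * max (1 - x) 0) := by
    push_cast; ring
  rw [e] at h2
  exact h2

theorem cu_deriv2 : deriv (deriv cu) = fun x => -(6 * max (1 - x) 0) :=
  funext fun x => (cu_hasDerivAt2 x).deriv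

theorem cu_contDiff : ContDiff ℝ 2 cu := by
  have h1 : ContDiff ℝ 1 (deriv cu) := by
    rw [contDiff_one_iff_deriv]
    refine ⟨fun x => (cu_hasDerivAt2 x).differentiableAt, ?_⟩
    rw [cu_deriv2]
    fun_prop
  have h2 : ContDiff ℝ (1 + 1) cu := by
    rw [contDiff_succ_iff_deriv]
    exact ⟨fun x => (cu_hasDerivAt x).differentiableAt, by simp, h1⟩
  exact h2

theorem cu_nonneg {x : ℝ} (hx : 0 ≤ x) : 0 ≤ cu x := by
  unfold cu
  have h1 : max (1 - x) 0 ≤ 1 := max_le (by linarith) zero_le_one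
  have h2 := pow_le_one₀ (n := 3) (le_max_right (1 - x) 0) h1
  linarith

theorem cu_le_one (x : ℝ) : cu x ≤ 1 := by
  unfold cu
  have := pow_nonneg (le_max_right (1 - x) 0) 3
  linarith

theorem cu_eq_one {x : ℝ} (hx : 1 ≤ x) : cu x = 1 := by
  unfold cu
  rw [max_eq_right (by linarith)]
  norm_num

theorem cu_lt_one {x : ℝ} (hx : x < 1) : cu x < 1 := by
  unfold cu
  rw [max_eq_left (by linarith)]
  have : 0 < (1 - x) ^ 3 := pow_pos (by linarith) 3
  linarith

theorem le_cu {x : ℝ} (hx : 0 ≤ x) (hx1 : x ≤ 1) : x ≤ cu x := by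
  unfold cu
  rw [max_eq_left (by linarith)]
  nlinarith [mul_nonneg hx (sub_nonneg.2 hx1), mul_nonneg (mul_nonneg hx (sub_nonneg.2 hx1))
    (sub_nonneg.2 hx1)]

theorem cu_le {x : ℝ} (hx : 0 ≤ x) : cu x ≤ 3 * x := by
  rcases le_or_gt x 1 with h | h
  · unfold cu
    rw [max_eq_left (by linarith)]
    nlinarith [mul_nonneg hx hx, mul_nonneg (mul_nonneg hx hx) hx]
  · have := cu_le_one x
    linarith

theorem LL_const_near {ι : Type} [Fintype ι] [DecidableEq ι] (F : ℝ × (ι → ℝ) → ℝ)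
    (q : ℝ × (ι → ℝ)) (c : ℝ) (h : F =ᶠ[𝓝 q] fun _ => c) : LL F q = 0 := by
  have h1 : ∀ i : ι, dC i F =ᶠ[𝓝 q] fun _ => 0 := by
    intro i
    have h2 : fderiv ℝ F =ᶠ[𝓝 q] fderiv ℝ fun _ : ℝ × (ι → ℝ) => c := h.fderiv
    filter_upwards [h2] with r hr
    unfold dC
    rw [hr, fderiv_fun_const]
    rfl
  have h3 : ∀ i : ι, dC i (dC i F) q = 0 := by
    intro i
    have h4 := (h1 i).fderiv_eq (𝕜 := ℝ)
    unfold dC at h4 ⊢
    rw [h4, fderiv_fun_const]
    rfl
  have h5 : fderiv ℝ F q = 0 := by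
    rw [h.fderiv_eq, fderiv_fun_const]
    rfl
  unfold LL
  rw [Finset.sum_eq_zero fun i _ => h3 i, h5]
  simp

theorem ufl (jal : JalStmt) (flw : FlwStmt) : UflStmt := by
  intro ι _ _ T a b u hT ha hb hab hu
  obtain ⟨F, hF⟩ : ∃ F : ℝ × (ι → ℝ) → ℝ, F = fun r => cu (u r) := ⟨_, rfl⟩
  have hkey : ∀ q : ℝ × (ι → ℝ), 0 ≤ q.1 → q.1 ≤ T → ContDiffAt ℝ 2 F q ∧ 0 ≤ F q ∧ F q ≤ 1 ∧
      LL F q ≤ 3 * a q.1 * F q + 3 * b q.1 := by
    intro q h0 h1
    obtain ⟨hu0, hcase⟩ := hu q h0 h1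
    have ha0 := (hab q.1).1
    have hb0 := (hab q.1).2
    have hF0 : 0 ≤ F q := by rw [hF]; exact cu_nonneg hu0
    have hF1 : F q ≤ 1 := by rw [hF]; exact cu_le_one _
    have hr0 : 0 ≤ 3 * a q.1 * F q + 3 * b q.1 := by positivity
    rcases hcase with hc | ⟨hs, hl⟩
    · have h2 : F =ᶠ[𝓝 q] fun _ => 1 := by
        filter_upwards [hc] with r hr
        rw [hF]
        exact cu_eq_one hr
      refine ⟨contDiffAt_const.congr_of_eventuallyEq h2, hF0, hF1, ?_⟩
      rw [LL_const_near F q 1 h2]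
      exact hr0
    · have h2 : HJ u q (u q) (fun c => dC c u q) (LL u q) := ⟨hs, rfl, fun _ => rfl, rfl⟩
      have h3 := ((jal ι ℝ q).2.2.2.2.1 u (u q) (LL u q) _ h2).2 cu cu_contDiff.contDiffAt
      have h4 : LL F q = deriv cu (u q) * LL u q +
          deriv (deriv cu) (u q) / 2 * ∑ c, dC c u q ^ 2 := by
        rw [hF]
        exact h3.ge
      refine ⟨?_, hF0, hF1, ?_⟩
      · rw [hF]
        exact h3.sm
      rw [h4, cu_deriv2, cu_deriv]
      have h5 : 0 ≤ ∑ c, dC c u q ^ 2 := Finset.sum_nonneg fun c _ => sq_nonneg _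
      rcases le_or_gt 1 (u q) with h6 | h6
      · have h7 : max (1 - u q) 0 = 0 := max_eq_right (by linarith)
        simp only [h7]
        have e : (3 : ℝ) * 0 ^ 2 * LL u q + -(6 * 0) / 2 * ∑ c, dC c u q ^ 2 = 0 := by ring
        rw [e]
        exact hr0
      · have h7 : max (1 - u q) 0 = 1 - u q := max_eq_left (by linarith)
        simp only [h7]
        have h8 := hl h6
        have h9 : 3 * (1 - u q) ^ 2 * LL u q ≤ 3 * (1 - u q) ^ 2 * (a q.1 * u q + b q.1) :=
          mul_le_mul_of_nonneg_left h8 (by positivity)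
        have h10 : -(6 * (1 - u q)) / 2 * ∑ c, dC c u q ^ 2 ≤ 0 := by
          have : 0 ≤ 6 * (1 - u q) / 2 * ∑ c, dC c u q ^ 2 :=
            mul_nonneg (by linarith) h5
          linarith
        have h11 : u q ≤ F q := by rw [hF]; exact le_cu hu0 h6.le
        have h12 : (1 - u q) ^ 2 ≤ 1 := by nlinarith
        have h13 : (1 - u q) ^ 2 * (a q.1 * u q + b q.1) ≤ a q.1 * F q + b q.1 := by
          have h14 : a q.1 * u q + b q.1 ≤ a q.1 * F q + b q.1 := by
            have := mul_le_mul_of_nonneg_left h11 ha0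
            linarith
          have h15 : 0 ≤ a q.1 * u q + b q.1 := by positivity
          calc (1 - u q) ^ 2 * (a q.1 * u q + b q.1) ≤ 1 * (a q.1 * u q + b q.1) :=
                mul_le_mul_of_nonneg_right h12 h15
            _ ≤ _ := by linarith
        linarith
  have h1 := flw ι T (fun t => 3 * a t) (fun t => 3 * b t) F hT (ha.const_mul 3 |> fun h => h)
    (hb.const_mul 3 |> fun h => h)
    (fun t => ⟨by linarith [(hab t).1], by linarith [(hab t).2]⟩) hkey
  rw [intervalIntegral.integral_const_mul, intervalIntegral.integral_const_mul] at h1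
  obtain ⟨P, hP⟩ : ∃ P : Measure (ι → ℝ), P = Measure.pi fun _ : ι => gaussianReal 0 T.toNNReal :=
    ⟨_, rfl⟩
  have hprob : IsProbabilityMeasure P := by rw [hP]; infer_instance
  rw [← hP] at h1 ⊢
  have hcont : Continuous fun V : ι → ℝ => F (T, V) := by
    rw [continuous_iff_continuousAt]
    intro V
    have h2 := (hkey (T, V) hT.le le_rfl).1.continuousAt
    exact ContinuousAt.comp (f := fun V : ι → ℝ => (T, V)) h2 (by fun_prop)
  have hF0 : ∀ V : ι → ℝ, 0 ≤ F (T, V) := fun V => (hkey (T, V) hT.le le_rfl).2.1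
  have hF1 : ∀ V : ι → ℝ, F (T, V) ≤ 1 := fun V => (hkey (T, V) hT.le le_rfl).2.2.1
  have hint : Integrable (fun V : ι → ℝ => F (T, V)) P := by
    refine Integrable.of_bound hcont.aestronglyMeasurable 1 (Eventually.of_forall fun V => ?_)
    rw [Real.norm_eq_abs, abs_of_nonneg (hF0 V)]
    exact hF1 V
  have h2 := mul_meas_ge_le_integral_of_nonneg (μ := P) (f := fun V : ι → ℝ => F (T, V))
    (Eventually.of_forall hF0) hint 1
  rw [one_mul] at h2
  have h3 : {V : ι → ℝ | 1 ≤ u (T, V)} ⊆ {V : ι → ℝ | 1 ≤ F (T, V)} := by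
    intro V hV
    have : F (T, V) = 1 := by rw [hF]; exact cu_eq_one hV
    exact this.ge
  have h4 : F (0, 0) ≤ 3 * u (0, 0) := by
    rw [hF]
    exact cu_le (hu (0, 0) le_rfl hT.le).1
  calc P {V | 1 ≤ u (T, V)} ≤ P {V | 1 ≤ F (T, V)} := measure_mono h3
    _ = ENNReal.ofReal (P.real {V | 1 ≤ F (T, V)}) := by
        rw [Measure.real, ENNReal.ofReal_toReal (measure_ne_top _ _)]
    _ ≤ _ := by
        refine ENNReal.ofReal_le_ofReal (h2.trans (h1.trans ?_))
        refine mul_le_mul_of_nonneg_left ?_ (Real.exp_pos _).le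
        linarith

end Pool.Agent.LE.QF.H70
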