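import Pool.Agent.LE.StmtsQG
import Pool.Agent.Helper76_LQD.RAL

/-!
# The parts of the functional are nonnegative
-/

set_option autoImplicit false

open MeasureTheory ProbabilityTheory Function Filter

open scoped ENNReal BigOperators Topology NNReal ComplexOrder Matrix

noncomputable section

namespace Pool.Agent.LE.QF.H70

open Pool.Agent.Anderson hiding box mem_box card_box
open Pool.Agent.Loc Pool.Agent.Mob Pool.Agent.Helper54.Bal
  Pool.Agent.Helper96.EXP Pool.Agent.BED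
open Pool.Agent.LE.MN Pool.Agent.LE.CL Pool.Agent.LE.IR Pool.Agent.LE.QD

theorem qf_Dl {X : Type} [Fintype X] [DecidableEq X] (K : Matrix X X ℝ)
    (hs : ∀ a b, K a b = K b a) (f : X → ℝ) :
    qf (Dl K) f = 1 / 2 * ∑ a, ∑ b, K a b * (f a - f b) ^ 2 := by
  have h1 : qf (Dl K) f = ∑ a, ∑ b, (K a b * (f a) ^ 2 - K a b * (f a * f b)) := by
    unfold qf Dl
    refine Finset.sum_congr rfl fun a _ => ?_
    rw [Matrix.sub_mulVec, Pi.sub_apply, Matrix.mulVec_diagonal]
    simp only [Matrix.mulVec, dotProduct]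
    rw [mul_sub, Finset.sum_mul, Finset.mul_sum, Finset.mul_sum, ← Finset.sum_sub_distrib]
    refine Finset.sum_congr rfl fun b _ => ?_
    ring
  have h2 : ∑ a, ∑ b, K a b * (f a) ^ 2 = ∑ a, ∑ b, K a b * (f b) ^ 2 := by
    rw [Finset.sum_comm]
    refine Finset.sum_congr rfl fun b _ => Finset.sum_congr rfl fun a _ => ?_
    rw [hs]
  have h3 : ∑ a, ∑ b, K a b * (f a - f b) ^ 2 =
      ∑ a, ∑ b, K a b * (f a) ^ 2 + ∑ a, ∑ b, K a b * (f b) ^ 2 -
        2 * ∑ a, ∑ b, K a b * (f a * f b) := by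
    rw [Finset.mul_sum, ← Finset.sum_add_distrib, ← Finset.sum_sub_distrib]
    refine Finset.sum_congr rfl fun a _ => ?_
    rw [Finset.mul_sum, ← Finset.sum_add_distrib, ← Finset.sum_sub_distrib]
    refine Finset.sum_congr rfl fun b _ => ?_
    ring
  have h4 : ∑ a, ∑ b, (K a b * (f a) ^ 2 - K a b * (f a * f b)) =
      ∑ a, ∑ b, K a b * (f a) ^ 2 - ∑ a, ∑ b, K a b * (f a * f b) := by
    rw [← Finset.sum_sub_distrib]
    refine Finset.sum_congr rfl fun a _ => ?_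
    rw [← Finset.sum_sub_distrib]
  rw [h1, h4, h3, ← h2]
  ring

theorem qf_smul {X : Type} [Fintype X] (c : ℝ) (K : Matrix X X ℝ) (f : X → ℝ) :
    qf (c • K) f = c * qf K f := by
  unfold qf
  rw [Finset.mul_sum]
  refine Finset.sum_congr rfl fun a _ => ?_
  rw [Matrix.smul_mulVec, Pi.smul_apply, smul_eq_mul]
  ring

theorem qf_Dl_nonneg {X : Type} [Fintype X] [DecidableEq X] (K : Matrix X X ℝ)
    (hs : ∀ a b, K a b = K b a) (h0 : ∀ a b, 0 ≤ K a b) (f : X → ℝ) : 0 ≤ qf (Dl K) f := by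
  rw [qf_Dl K hs]
  refine mul_nonneg (by norm_num) (Finset.sum_nonneg fun a _ => Finset.sum_nonneg fun b _ => ?_)
  exact mul_nonneg (h0 a b) (sq_nonneg _)

theorem KK_symm {X : Type} [Fintype X] (G : Matrix X X ℂ) (h : ∀ a b, G a b = G b a)
    (a b : X) : KK G a b = KK G b a := by
  unfold KK
  rw [h]

theorem KK_nonneg {X : Type} [Fintype X] (G : Matrix X X ℂ) (a b : X) : 0 ≤ KK G a b := by
  unfold KK
  positivity

theorem Dl_symm {X : Type} [Fintype X] [DecidableEq X] (K : Matrix X X ℝ)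
    (hs : ∀ a b, K a b = K b a) (a b : X) : Dl K a b = Dl K b a := by
  unfold Dl
  rw [Matrix.sub_apply, Matrix.sub_apply, hs a b]
  by_cases h : a = b
  · subst h; rfl
  · rw [Matrix.diagonal_apply_ne _ h, Matrix.diagonal_apply_ne _ (Ne.symm h)]

theorem nnu (hw : WabStmt) : NnuStmt := by
  intro d M _ D c₁ C₁ c₀ k₀ q hc hA hkp
  have him : 0 < D.m.im := lt_of_lt_of_le hc hA.hm.1
  have hta : 0 ≤ D.ta q.1 := by
    unfold Dat.ta
    positivity
  have hε : 0 < D.ε₁ := lt_of_lt_of_le hA.hδ.1 hA.hδ.2.1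
  have hδ : 0 < D.δ := hA.hδ.1
  have hL₀ : 1 ≤ D.L₀ := hA.hj.2.2.1
  have hN : 1 ≤ D.N := hA.hj.2.2.2.1
  have hπ : 0 ≤ D.π₀ := hA.hj.2.2.2.2
  refine ⟨?_, ?_, ?_, ?_, ?_⟩
  · unfold Dat.U1
    positivity
  · unfold Dat.U2
    positivity
  · unfold Dat.U3
    refine div_nonneg ?_ (by positivity)
    have h1 := ((Matrix.posSemidef_self_mul_conjTranspose (D.Y q)).pow D.j).trace_nonneg
    exact (Complex.le_def.1 h1).1
  · unfold Dat.U4
    refine Finset.sum_nonneg fun a _ => pow_nonneg (div_nonneg ?_ ?_) _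
    · unfold Dat.La
      positivity
    · unfold Dat.Ls
      positivity
  · have hsG : ∀ a b, D.G q a b = D.G q b a := fun a b => QD.H76.rs_symm _ _ a b
    have hX1 : ∀ a b, D.X q a b = D.X q b a := by
      intro a b
      unfold Dat.X
      rw [Matrix.smul_apply, Matrix.smul_apply, Dl_symm _ (KK_symm _ hsG)]
    have hX2 : ∀ f, 0 ≤ qf (D.X q) f := by
      intro f
      unfold Dat.X
      rw [qf_smul]
      exact mul_nonneg hta (qf_Dl_nonneg _ (KK_symm _ hsG) (KK_nonneg _) f)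
    have h := (hw (Tor d M) (D.X q) D.S D.e₀ D.e₁ (D.ta q.1) D.ϖ D.p hX1 hX2 hA.hS.1 hA.hS.2.1
      (by linarith [hA.he.1, hA.he.2.1]) (by linarith [hA.he.1]) hta hA.hϖ.1
      (by linarith [hA.hj.2.1])).2.2.1
    exact h

end Pool.Agent.LE.QF.H70
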