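import Pool.Agent.LE.StmtsQF

/-!
# The jet of `φ = (1 - τ B)⁻¹ μ`
-/

set_option autoImplicit false

open MeasureTheory ProbabilityTheory Function Filter

open scoped ENNReal BigOperators Topology NNReal ComplexOrder Matrix

noncomputable section

namespace Pool.Agent.LE.QF.H70

open Pool.Agent.Anderson hiding box mem_box card_box
open Pool.Agent.Loc Pool.Agent.Mob Pool.Agent.Helper54.Bal
  Pool.Agent.Helper96.EXP Pool.Agent.BED
open Pool.Agent.LE.MN Pool.Agent.LE.CL Pool.Agent.LE.IR Pool.Agent.LE.QD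

theorem HJ_of_eq {ι : Type} [Fintype ι] [DecidableEq ι] {E : Type} [NormedAddCommGroup E]
    [NormedSpace ℝ E] {F F' : ℝ × (ι → ℝ) → E} {q : ℝ × (ι → ℝ)} {v v' : E} {g g' : ι → E}
    {l l' : E} (h : HJ F q v g l) (hF : F = F') (hv : v = v') (hg : g = g') (hl : l = l') :
    HJ F' q v' g' l' := by
  subst hF hv hg hl
  exact h

/-- `∂_c Y φ` -/
theorem dB_mulVec {X : Type} [Fintype X] [DecidableEq X] (G : Matrix X X ℂ)
    (hs : ∀ a b, G a b = G b a) (φ : X → ℂ) (c b : X) :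
    (dB G c *ᵥ φ) b = -(2 * G b c * GD G φ b c) := by
  unfold GD
  rw [Matrix.mul_apply]
  simp only [Matrix.mul_diagonal, Matrix.mulVec, dotProduct, dB]
  rw [Finset.mul_sum, ← Finset.sum_neg_distrib]
  refine Finset.sum_congr rfl fun e _ => ?_
  rw [hs e c]
  ring

theorem jtp (jal : JalStmt) (jma : JmaStmt) (jtb : JtbStmt) : JtpStmt := by
  intro X _ _ q Gm ta G Θ m τ μ hyp hμ hu hΘ a
  obtain ⟨-, -, hMu, hY, -⟩ := jtb X q Gm ta G m τ μ hyp hμ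
  have hs := hyp.hs
  obtain ⟨Yc, hYc⟩ : ∃ Yc : X → Matrix X X ℂ, Yc = fun c => (τ : ℂ) • dB G c := ⟨_, rfl⟩
  have hYcc : ∀ c, Yc c = (τ : ℂ) • dB G c := by
    intro c
    rw [hYc]
  obtain ⟨Yl, hYl⟩ : ∃ Yl : Matrix X X ℂ, Yl = -BB G + (τ : ℂ) • (BB G * BB G + EB G μ) :=
    ⟨_, rfl⟩
  obtain ⟨φ, hφ⟩ : ∃ φ : X → ℂ, φ = Θ *ᵥ μ := ⟨_, rfl⟩
  -- the jet of `1 - Y`
  have h1 : HM (fun r => (1 : Matrix X X ℂ) - (ta r.1 : ℂ) • BB (Gm r)) q
      (1 - (τ : ℂ) • BB G) (fun c => -Yc c) (-Yl) := by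
    intro x y
    have h2 := ((jal X ℂ q).2.2.1 _ _ _ _ _ _ _ _ ((jal X ℂ q).1 ((1 : Matrix X X ℂ) x y))
      (hY x y)).2.1
    refine HJ_of_eq h2 ?_ ?_ ?_ ?_
    · rfl
    · rfl
    · funext c
      simp only [hYcc, Matrix.neg_apply, zero_sub]
    · rw [hYl, Matrix.neg_apply, zero_sub]
  -- the jet of the inverse
  have h3 := ((jma X ℂ q).2 X _ _ _ _ h1).1 hu
  rw [← hΘ] at h3
  -- the jet of the column
  have h4 : HM (fun r => Matrix.of fun (b : X) (_ : Unit) => Gm r b b - m) q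
      (Matrix.of fun b _ => μ b) (fun c => Matrix.of fun b _ => -BB G b c)
      (Matrix.of fun b _ => (BB G *ᵥ μ) b) := fun b _ => hMu b
  have h5 := (jma X ℂ q).1 X X Unit _ _ _ _ _ _ _ _ h3 h4 a ()
  have hcol : ∀ (M : Matrix X X ℂ) (w : X → ℂ),
      (M * Matrix.of fun (b : X) (_ : Unit) => w b) a () = (M *ᵥ w) a := by
    intro M w
    rw [Matrix.mul_apply]
    rfl
  have hinv : (1 - (τ : ℂ) • BB G) * Θ = 1 := by
    rw [hΘ, Matrix.mul_nonsing_inv _ hu]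
  -- the gradient, for every component
  have hgr : ∀ c : X, (Θ *ᵥ fun b => -BB G b c) + Θ *ᵥ (Yc c *ᵥ φ) =
      fun y => QQ G Θ τ φ y c := by
    intro c
    funext y
    unfold QQ
    rw [Pi.add_apply, Matrix.neg_apply, Matrix.mul_apply]
    simp only [Matrix.mulVec, dotProduct, Matrix.of_apply]
    rw [← Finset.sum_add_distrib, ← Finset.sum_neg_distrib]
    refine Finset.sum_congr rfl fun b _ => ?_
    have h6 : ∑ x, Yc c b x * φ x = -((τ : ℂ) * (2 * G b c * GD G φ b c)) := by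
      have h7 := dB_mulVec G hs φ c b
      simp only [Matrix.mulVec, dotProduct] at h7
      have h8 : ∀ x, Yc c b x * φ x = (τ : ℂ) * (dB G c b x * φ x) := by
        intro x
        rw [hYcc, Matrix.smul_apply, smul_eq_mul, mul_assoc]
      rw [Finset.sum_congr rfl fun x _ => h8 x, ← Finset.mul_sum, h7]
      ring
    rw [h6]
    unfold BB
    ring
  refine HJ_of_eq h5 ?_ ?_ ?_ ?_
  · funext r
    exact hcol _ _
  · exact hcol _ _
  · funext c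
    have e1 : (Θ * (Matrix.of fun (b : X) (_ : Unit) => -BB G b c) +
        -(Θ * -Yc c * Θ) * Matrix.of fun (b : X) (_ : Unit) => μ b) a () =
        ((Θ *ᵥ fun b => -BB G b c) + Θ *ᵥ (Yc c *ᵥ φ)) a := by
      rw [Matrix.add_apply, hcol, hcol, Pi.add_apply]
      congr 1
      rw [Matrix.mul_neg, Matrix.neg_mul, neg_neg, ← Matrix.mulVec_mulVec, ← Matrix.mulVec_mulVec,
        hφ]
    rw [← hφ]
    exact e1.trans (congrFun (hgr c) a)
  · have e2 : ∀ c : X, ((-(Θ * -Yc c * Θ)) *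
        Matrix.of fun (b : X) (_ : Unit) => -BB G b c) a () =
        (Θ *ᵥ (Yc c *ᵥ (Θ *ᵥ fun b => -BB G b c))) a := by
      intro c
      rw [hcol, Matrix.mul_neg, Matrix.neg_mul, neg_neg, ← Matrix.mulVec_mulVec,
        ← Matrix.mulVec_mulVec]
    have e3 : (Θ * Matrix.of fun (b : X) (_ : Unit) => (BB G *ᵥ μ) b) a () =
        (Θ *ᵥ (BB G *ᵥ μ)) a := hcol _ _
    have e4 : ((-(Θ * -Yl * Θ) + ∑ c, Θ * -Yc c * Θ * -Yc c * Θ) *
        Matrix.of fun (b : X) (_ : Unit) => μ b) a () =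
        (Θ *ᵥ (Yl *ᵥ φ)) a + ∑ c, (Θ *ᵥ (Yc c *ᵥ (Θ *ᵥ (Yc c *ᵥ φ)))) a := by
      rw [hcol, Matrix.add_mulVec, Pi.add_apply, Matrix.sum_mulVec, Finset.sum_apply]
      congr 1
      · rw [Matrix.mul_neg, Matrix.neg_mul, neg_neg, ← Matrix.mulVec_mulVec,
          ← Matrix.mulVec_mulVec, hφ]
      · refine Finset.sum_congr rfl fun c _ => ?_
        simp only [Matrix.mul_neg, Matrix.neg_mul, neg_neg]
        rw [← Matrix.mulVec_mulVec, ← Matrix.mulVec_mulVec, ← Matrix.mulVec_mulVec,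
          ← Matrix.mulVec_mulVec, hφ]
    have e5 : Yl *ᵥ φ = -(BB G *ᵥ μ) + (τ : ℂ) • (EB G μ *ᵥ φ) := by
      have h9 : φ - (τ : ℂ) • (BB G *ᵥ φ) = μ := by
        have h10 : (1 - (τ : ℂ) • BB G) *ᵥ φ = μ := by
          rw [hφ, Matrix.mulVec_mulVec, hinv, Matrix.one_mulVec]
        rwa [Matrix.sub_mulVec, Matrix.one_mulVec, Matrix.smul_mulVec] at h10
      have h12 : BB G *ᵥ μ = BB G *ᵥ φ - (τ : ℂ) • (BB G *ᵥ (BB G *ᵥ φ)) := by
        rw [← Matrix.mulVec_smul, ← Matrix.mulVec_sub, h9]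
      rw [hYl, Matrix.add_mulVec, Matrix.neg_mulVec, Matrix.smul_mulVec, Matrix.add_mulVec,
        ← Matrix.mulVec_mulVec, h12, smul_add]
      abel
    have e6 : (∑ c, (-(Θ * -Yc c * Θ)) * Matrix.of fun (b : X) (_ : Unit) => -BB G b c) a () =
        ∑ c, (Θ *ᵥ (Yc c *ᵥ (Θ *ᵥ fun b => -BB G b c))) a := by
      rw [Matrix.sum_apply]
      exact Finset.sum_congr rfl fun c _ => e2 c
    have e7 : lph G Θ τ φ μ a = (Θ *ᵥ (BB G *ᵥ μ)) a + ((Θ *ᵥ (Yl *ᵥ φ)) a +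
        ∑ c, (Θ *ᵥ (Yc c *ᵥ (Θ *ᵥ (Yc c *ᵥ φ)))) a) +
        ∑ c, (Θ *ᵥ (Yc c *ᵥ (Θ *ᵥ fun b => -BB G b c))) a := by
      have e8 : ∀ c, (Θ *ᵥ (((τ : ℂ) • dB G c) *ᵥ fun y => QQ G Θ τ φ y c)) a =
          (Θ *ᵥ (Yc c *ᵥ (Θ *ᵥ (Yc c *ᵥ φ)))) a +
          (Θ *ᵥ (Yc c *ᵥ (Θ *ᵥ fun b => -BB G b c))) a := by
        intro c
        rw [← hYcc c, ← hgr c, Matrix.mulVec_add, Matrix.mulVec_add, Pi.add_apply, add_comm]
      unfold lph
      rw [Finset.sum_congr rfl fun c _ => e8 c, Finset.sum_add_distrib, e5, Matrix.mulVec_add,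
        Matrix.mulVec_neg, Matrix.mulVec_smul, Pi.add_apply, Pi.neg_apply, Pi.smul_apply,
        smul_eq_mul]
      ring
    rw [← hφ]
    rw [e7, ← e3, ← e4, ← e6]
    rfl

end Pool.Agent.LE.QF.H70
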